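import Pool.Agent.Q161.ESF.Stm8
import Pool.Agent.Q211.ESG.Kxn

/-! # Project ESF (helper161), JOB FULL: almost all curves over every number field are admissible -/

set_option autoImplicit false

namespace Pool.Agent.Q275.ESF

open Polynomial NumberField Finset

open scoped Classical

open Pool.Agent.Q161.ESF

/-- `T` holds outside sets of classes of small proportion, modulo numbers with large prime factors -/
def Lg {F : Type} [Field F] [NumberField F] (T : 𝓞 F → 𝓞 F → Prop) : Prop :=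
  ∀ ε : ℝ, 0 < ε → ∀ B : ℕ, ∃ (q : ℕ) (G : 𝓞 F → 𝓞 F → Prop), q ≠ 0 ∧ (∀ p : ℕ, p.Prime → p ∣ q → B < p) ∧
    Per q G ∧ (1 - ε) * (q : ℝ) ^ (2 * Module.finrank ℚ F) ≤ cnt q G ∧ ∀ a b, G a b → T a b

variable {F : Type} [Field F] [NumberField F]

theorem per_not {q : ℕ} {P : 𝓞 F → 𝓞 F → Prop} (h : Per q P) : Per q (fun a b => ¬ P a b) := by
  intro a b a' b' h1 h2 h3 h4
  refine h3 (h a' b' a b ?_ ?_ h4)
  · rw [← neg_sub]
    exact (dvd_neg).2 h1
  · rw [← neg_sub]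
    exact (dvd_neg).2 h2

theorem per_and {q r : ℕ} {P Q : 𝓞 F → 𝓞 F → Prop} (h : Per q P) (h' : Per r Q) :
    Per (q * r) (fun a b => P a b ∧ Q a b) := by
  intro a b a' b' h1 h2 h3
  rw [Nat.cast_mul] at h1 h2
  exact ⟨h a b a' b' ((Dvd.intro _ rfl).trans h1) ((Dvd.intro _ rfl).trans h2) h3.1,
    h' a b a' b' ((Dvd.intro_left _ rfl).trans h1) ((Dvd.intro_left _ rfl).trans h2) h3.2⟩

/-- the repeated use of one test -/
theorem lg_one (hS : S_SPLM) (hD : S_DEN) (M : Type) [Field M] [NumberField M]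
    (P : (p : ℕ) → [Fact p.Prime] → (𝓞 M →+* ZMod p) → 𝓞 F → 𝓞 F → Prop) (B0 : ℕ)
    (h : ∀ (p : ℕ) [Fact p.Prime] (ψ : 𝓞 M →+* ZMod p), B0 < p →
      Per p (P p ψ) ∧ p ^ (2 * Module.finrank ℚ F) ≤ 36 * cnt p (P p ψ)) :
    Lg fun a b => ∃ (p : ℕ) (_ : Fact p.Prime) (ψ : 𝓞 M →+* ZMod p), P p ψ a b := by
  intro ε hε B
  have key : ∀ m : ℕ, ∃ (q : ℕ) (G : 𝓞 F → 𝓞 F → Prop), q ≠ 0 ∧ (∀ p : ℕ, p.Prime → p ∣ q → B < p) ∧
      Per q G ∧ 36 ^ m * cnt q G ≤ 35 ^ m * q ^ (2 * Module.finrank ℚ F) ∧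
      ∀ a b, ¬ G a b → ∃ (p : ℕ) (_ : Fact p.Prime) (ψ : 𝓞 M →+* ZMod p), P p ψ a b := by
    intro m
    induction m with
    | zero =>
      refine ⟨1, fun _ _ => True, one_ne_zero, ?_, ?_, ?_, ?_⟩
      · intro p hp hp1
        exact absurd (Nat.dvd_one.1 hp1) hp.one_lt.ne'
      · intro _ _ _ _ _ _ _
        trivial
      · rw [(hD F).1 1 one_ne_zero, pow_zero, pow_zero]
      · intro a b h1
        exact absurd trivial h1
    | succ m ih =>
      obtain ⟨q, G, hq, hqB, hG, hcnt, hgood⟩ := ih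
      obtain ⟨p, hp1, hp, ⟨ψ⟩⟩ := hS M (max (max B0 B) q)
      haveI : Fact p.Prime := ⟨hp⟩
      have hB0 : B0 < p := lt_of_le_of_lt ((le_max_left _ _).trans (le_max_left _ _)) hp1
      have hB : B < p := lt_of_le_of_lt ((le_max_right _ _).trans (le_max_left _ _)) hp1
      have hqp : q < p := lt_of_le_of_lt (le_max_right _ _) hp1
      obtain ⟨h1, h2⟩ := h p ψ hB0
      have hcop : Nat.Coprime q p := by
        refine Nat.Coprime.symm ((Nat.Prime.coprime_iff_not_dvd hp).2 fun hd => ?_)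
        have := Nat.le_of_dvd (Nat.pos_of_ne_zero hq) hd
        omega
      have h3 := (hD F).2.1 p (P p ψ) hp.ne_zero h1
      have h4 := (hD F).2.2 q p G (fun a b => ¬ P p ψ a b) hq hp.ne_zero hcop hG (per_not h1)
      refine ⟨q * p, fun a b => G a b ∧ ¬ P p ψ a b, mul_ne_zero hq hp.ne_zero, ?_, per_and hG (per_not h1), ?_, ?_⟩
      · intro l hl hd
        rcases (Nat.Prime.dvd_mul hl).1 hd with hd | hd
        · exact hqB l hl hd
        · rw [(Nat.prime_dvd_prime_iff_eq hl hp).1 hd]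
          exact hB
      · rw [h4]
        have h5 : 36 * cnt p (fun a b => ¬ P p ψ a b) ≤ 35 * p ^ (2 * Module.finrank ℚ F) := by omega
        calc 36 ^ (m + 1) * (cnt q G * cnt p (fun a b => ¬ P p ψ a b))
            = (36 ^ m * cnt q G) * (36 * cnt p (fun a b => ¬ P p ψ a b)) := by ring
          _ ≤ (35 ^ m * q ^ (2 * Module.finrank ℚ F)) * (35 * p ^ (2 * Module.finrank ℚ F)) :=
              Nat.mul_le_mul hcnt h5
          _ = 35 ^ (m + 1) * (q * p) ^ (2 * Module.finrank ℚ F) := by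
              rw [mul_pow]
              ring
      · intro a b hab
        by_cases hG1 : G a b
        · have h6 : P p ψ a b := by
            by_contra h7
            exact hab ⟨hG1, h7⟩
          exact ⟨p, inferInstance, ψ, h6⟩
        · exact hgood a b hG1
  obtain ⟨m, hm⟩ := exists_pow_lt_of_lt_one hε (by norm_num : (35 / 36 : ℝ) < 1)
  obtain ⟨q, G, hq, hqB, hG, hcnt, hgood⟩ := key m
  refine ⟨q, fun a b => ¬ G a b, hq, hqB, per_not hG, ?_, hgood⟩
  have h3 := (hD F).2.1 q G hq hG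
  have h4 : (cnt q G : ℝ) + cnt q (fun a b => ¬ G a b) = (q : ℝ) ^ (2 * Module.finrank ℚ F) := by
    exact_mod_cast h3
  have h5 : (36 : ℝ) ^ m * cnt q G ≤ 35 ^ m * (q : ℝ) ^ (2 * Module.finrank ℚ F) := by
    exact_mod_cast hcnt
  have h6 : (cnt q G : ℝ) ≤ (35 / 36 : ℝ) ^ m * (q : ℝ) ^ (2 * Module.finrank ℚ F) := by
    rw [div_pow, div_mul_eq_mul_div, le_div_iff₀ (by positivity)]
    linarith
  have h7 : (0 : ℝ) ≤ (q : ℝ) ^ (2 * Module.finrank ℚ F) := by positivity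
  have h8 := mul_le_mul_of_nonneg_right hm.le h7
  linarith

theorem lg_and (hD : S_DEN) {T T' : 𝓞 F → 𝓞 F → Prop} (h : Lg T) (h' : Lg T') :
    Lg fun a b => T a b ∧ T' a b := by
  intro ε hε B
  obtain ⟨δ, hδ⟩ : ∃ δ : ℝ, δ = min ε 1 / 2 := ⟨_, rfl⟩
  have hm0 : 0 < min ε 1 := lt_min hε one_pos
  have hm1 : min ε 1 ≤ 1 := min_le_right _ _
  have hm2 : min ε 1 ≤ ε := min_le_left _ _
  have hδ0 : 0 < δ := by
    rw [hδ]
    linarith
  obtain ⟨q, G, hq, hqB, hG, hcnt, hgood⟩ := h δ hδ0 B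
  obtain ⟨r, G', hr, hrB, hG', hcnt', hgood'⟩ := h' δ hδ0 (max B q)
  have hcop : Nat.Coprime q r := by
    refine Nat.Coprime.symm (Nat.coprime_of_dvd fun l hl h1 h2 => ?_)
    have h3 := hrB l hl h1
    have h4 := Nat.le_of_dvd (Nat.pos_of_ne_zero hq) h2
    have h5 : q < l := lt_of_le_of_lt (le_max_right _ _) h3
    omega
  refine ⟨q * r, fun a b => G a b ∧ G' a b, mul_ne_zero hq hr, ?_, per_and hG hG', ?_, ?_⟩
  · intro l hl hd
    rcases (Nat.Prime.dvd_mul hl).1 hd with hd | hd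
    · exact hqB l hl hd
    · exact lt_of_le_of_lt (le_max_left _ _) (hrB l hl hd)
  · rw [(hD F).2.2 q r G G' hq hr hcop hG hG']
    push_cast
    have h1 : 0 ≤ 1 - δ := by
      rw [hδ]
      linarith
    have h2 : 0 ≤ (1 - δ) * (r : ℝ) ^ (2 * Module.finrank ℚ F) := by positivity
    calc (1 - ε) * ((q : ℝ) * r) ^ (2 * Module.finrank ℚ F)
        ≤ ((1 - δ) * (1 - δ)) * ((q : ℝ) * r) ^ (2 * Module.finrank ℚ F) := by
          refine mul_le_mul_of_nonneg_right ?_ (by positivity)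
          rw [hδ]
          nlinarith
      _ = ((1 - δ) * (q : ℝ) ^ (2 * Module.finrank ℚ F)) * ((1 - δ) * (r : ℝ) ^ (2 * Module.finrank ℚ F)) := by
          rw [mul_pow]
          ring
      _ ≤ cnt q G * cnt r G' := mul_le_mul hcnt hcnt' h2 (Nat.cast_nonneg _)
  · intro a b hab
    exact ⟨hgood a b hab.1, hgood' a b hab.2⟩

theorem lg_true (hD : S_DEN) : Lg (F := F) fun _ _ => True := by
  intro ε hε B
  refine ⟨1, fun _ _ => True, one_ne_zero, ?_, ?_, ?_, fun _ _ _ => trivial⟩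
  · intro p hp hp1
    exact absurd (Nat.dvd_one.1 hp1) hp.one_lt.ne'
  · intro _ _ _ _ _ _ _
    trivial
  · rw [(hD F).1 1 one_ne_zero]
    simp only [Nat.cast_one, one_pow, mul_one]
    linarith

theorem lg_all (hD : S_DEN) {J : Type} (s : Finset J) (T : J → 𝓞 F → 𝓞 F → Prop) (h : ∀ j ∈ s, Lg (T j)) :
    Lg fun a b => ∀ j ∈ s, T j a b := by
  induction s using Finset.induction_on with
  | empty =>
    intro ε hε B
    obtain ⟨q, G, h1, h2, h3, h4, _⟩ := lg_true (F := F) hD ε hε B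
    refine ⟨q, G, h1, h2, h3, h4, ?_⟩
    intro a b _ j hj
    exact absurd hj (Finset.notMem_empty j)
  | insert j s _ ih =>
    have h1 := lg_and hD (h j (Finset.mem_insert_self j s)) (ih fun i hi => h i (Finset.mem_insert_of_mem hi))
    intro ε hε B
    obtain ⟨q, G, h2, h3, h4, h5, h6⟩ := h1 ε hε B
    refine ⟨q, G, h2, h3, h4, h5, ?_⟩
    intro a b hab i hi
    rcases Finset.mem_insert.1 hi with rfl | hi
    · exact (h6 a b hab).1
    · exact (h6 a b hab).2 i hi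

theorem full (hS : S_SPLM) (hL : S_LOC3) (hD : S_DEN) (hO : S_ONE) : S_FULL := by
  intro F _ _ ε hε
  obtain ⟨M, iM, iN, hgal, hemb⟩ := Q211.ESG.kxn Unit (fun _ => F)
  obtain ⟨hO1, hO2⟩ := hO F M
  -- the first tests
  have t1 : ∀ τ ∈ (Finset.univ : Finset (F →+* M)), Lg fun a b =>
      ∃ (p : ℕ) (_ : Fact p.Prime) (ψ : 𝓞 M →+* ZMod p), Nz ψ τ a b := by
    intro τ _
    refine lg_one hS hD M (fun p _ ψ => Nz ψ τ) 4 ?_
    intro p _ ψ hp
    obtain ⟨h1, h2⟩ := hO1 τ p ψ hp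
    exact ⟨h1, h2.trans (Nat.mul_le_mul_right _ (by norm_num))⟩
  have t2 : ∀ τ ∈ (Finset.univ : Finset ((F →+* M) × (F →+* M))), Lg fun a b => τ.1 ≠ τ.2 →
      ∃ (p : ℕ) (_ : Fact p.Prime) (ψ : 𝓞 M →+* ZMod p), Nz ψ τ.1 a b ∧ Sz ψ τ.2 a b := by
    intro τ _
    by_cases hτ : τ.1 = τ.2
    · intro δ hδ B
      obtain ⟨q, G, h1, h2, h3, h4, _⟩ := lg_true (F := F) hD δ hδ B
      exact ⟨q, G, h1, h2, h3, h4, fun a b _ hne => absurd hτ hne⟩
    · obtain ⟨B0, hB0⟩ := hO2 τ.1 τ.2 hτ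
      have h5 := lg_one hS hD M (fun p _ ψ => fun a b => Nz ψ τ.1 a b ∧ Sz ψ τ.2 a b) B0
        (fun p _ ψ hp => hB0 p ψ hp)
      intro δ hδ B
      obtain ⟨q, G, h1, h2, h3, h4, h6⟩ := h5 δ hδ B
      exact ⟨q, G, h1, h2, h3, h4, fun a b hab _ => h6 a b hab⟩
  have t3 := lg_and hD (lg_all hD Finset.univ _ t1) (lg_all hD Finset.univ _ t2)
  obtain ⟨q, G, hq, _, _, hcnt, hgood⟩ := t3 ε hε 0
  haveI : Finite (Cl F q) := by
    refine Ideal.finiteQuotientOfFreeOfNeBot _ ?_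
    rw [Ne, Ideal.span_singleton_eq_bot]
    exact_mod_cast hq
  haveI : Fintype (Cl F q) := Fintype.ofFinite _
  refine ⟨q, Finset.univ.filter (fun z : Cl F q × Cl F q => ∀ a b : 𝓞 F,
    z = (Ideal.Quotient.mk (Ideal.span {(q : 𝓞 F)}) a, Ideal.Quotient.mk (Ideal.span {(q : 𝓞 F)}) b) →
      G a b), hq, ?_, M, iM, iN, ?_⟩
  · have h1 : cnt q G = (Finset.univ.filter (fun z : Cl F q × Cl F q => ∀ a b : 𝓞 F,
        z = (Ideal.Quotient.mk (Ideal.span {(q : 𝓞 F)}) a, Ideal.Quotient.mk (Ideal.span {(q : 𝓞 F)}) b) →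
        G a b)).card := by
      unfold cnt
      rw [Nat.card_eq_fintype_card, Fintype.card_subtype]
    rw [← h1]
    exact hcnt
  · intro a b hab
    rw [Finset.mem_filter] at hab
    obtain ⟨g1, g2⟩ := hgood a b (hab.2 a b rfl)
    refine ⟨hgal, hemb (), ?_, ?_⟩
    · intro τ x hx
      obtain ⟨p, hp, ψ, h1⟩ := g1 τ (Finset.mem_univ τ)
      -- the zero is integral
      have hint : IsIntegral (𝓞 M) x := by
        refine ⟨X ^ 3 + C (RingOfIntegers.mapRingHom τ a) * X + C (RingOfIntegers.mapRingHom τ b), ?_, ?_⟩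
        · monicity!
        · rw [eval₂_add, eval₂_add, eval₂_mul, eval₂_C, eval₂_C, eval₂_X, eval₂_pow, eval₂_X]
          exact hx
      have hint2 : IsIntegral ℤ x := isIntegral_trans x hint
      obtain ⟨y, hy⟩ : ∃ y : 𝓞 M, (y : M) = x := ⟨⟨x, hint2⟩, rfl⟩
      have hy3 : y ^ 3 + RingOfIntegers.mapRingHom τ a * y + RingOfIntegers.mapRingHom τ b = 0 := by
        apply RingOfIntegers.ext
        have : (y : M) ^ 3 + τ (a : F) * (y : M) + τ (b : F) = 0 := by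
          rw [hy]
          exact hx
        exact this
      have h2 := congrArg ψ hy3
      rw [map_add, map_add, map_mul, map_pow, map_zero] at h2
      exact h1 (ψ y) h2
    · intro σ τ hne _ x
      obtain ⟨p, hp, ψ, h1, h2⟩ := g2 (τ, (σ : M →+* M).comp τ) (Finset.mem_univ _) (fun h => hne h.symm)
      exact hL M p ψ (RingOfIntegers.mapRingHom τ a) (RingOfIntegers.mapRingHom τ b)
        (RingOfIntegers.mapRingHom ((σ : M →+* M).comp τ) a) (RingOfIntegers.mapRingHom ((σ : M →+* M).comp τ) b)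
        h1 h2 x

end Pool.Agent.Q275.ESF
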