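import Pool.Agent.Q161.ESF.Stm8

/-! # Project ESF (helper161), JOB ONE: the proportion at one prime -/

set_option autoImplicit false

namespace Pool.Agent.Q275.ESF

open Polynomial NumberField Finset

open scoped Classical

open Pool.Agent.Q161.ESF

/-- the fibres of a surjective homomorphism -/
theorem card_pre {G H : Type} [AddCommGroup G] [AddCommGroup H] (g : G →+ H)
    (hg : Function.Surjective g) (Q : H → Prop) :
    Nat.card {z : G // Q (g z)} = Nat.card {h : H // Q h} * Nat.card g.ker := by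
  rw [← Nat.card_prod]
  obtain ⟨s, hs⟩ := hg.hasRightInverse
  refine Nat.card_congr
    { toFun := fun z => (⟨g z.1, z.2⟩, ⟨z.1 - s (g z.1), by
        rw [AddMonoidHom.mem_ker, map_sub, hs, sub_self]⟩)
      invFun := fun w => ⟨s w.1.1 + w.2.1, by
        have h1 := (AddMonoidHom.mem_ker).1 w.2.2
        rw [map_add, hs, h1, add_zero]
        exact w.1.2⟩
      left_inv := ?_
      right_inv := ?_ }
  · intro z
    apply Subtype.ext
    show s (g z.1) + (z.1 - s (g z.1)) = z.1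
    abel
  · intro w
    have h1 := (AddMonoidHom.mem_ker).1 w.2.2
    have h2 : g (s w.1.1 + w.2.1) = w.1.1 := by
      rw [map_add, hs, h1, add_zero]
    refine Prod.ext (Subtype.ext h2) (Subtype.ext ?_)
    show s w.1.1 + w.2.1 - s (g (s w.1.1 + w.2.1)) = w.2.1
    rw [h2]
    abel

theorem card_mul {G H : Type} [AddCommGroup G] [AddCommGroup H] (g : G →+ H)
    (hg : Function.Surjective g) (Q : H → Prop) :
    Nat.card {z : G // Q (g z)} * Nat.card H = Nat.card {h : H // Q h} * Nat.card G := by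
  have h1 := card_pre g hg Q
  have h2 := card_pre g hg (fun _ => True)
  have h3 : Nat.card {z : G // True} = Nat.card G := Nat.card_congr (Equiv.subtypeUnivEquiv fun _ => trivial)
  have h4 : Nat.card {z : H // True} = Nat.card H := Nat.card_congr (Equiv.subtypeUnivEquiv fun _ => trivial)
  rw [h3, h4] at h2
  rw [h1, h2]
  ring

/-- the number of the classes -/
theorem card_cl (F : Type) [Field F] [NumberField F] (q : ℕ) :
    Nat.card (Cl F q) = q ^ Module.finrank ℚ F := by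
  have h1 := Ideal.absNorm_span_natCast (S := 𝓞 F) q
  rw [RingOfIntegers.rank] at h1
  rw [← h1]
  rfl

/-- the count for a property which depends on the image in a finite ring -/
theorem cnt_hom {F : Type} [Field F] [NumberField F] (q : ℕ) {A : Type} [CommRing A] (f : 𝓞 F →+* A)
    (hf : Function.Surjective f) (hq : (q : A) = 0) (P : 𝓞 F → 𝓞 F → Prop) (Q : A × A → Prop)
    (hP : ∀ a b, P a b ↔ Q (f a, f b)) :
    Per q P ∧ cnt q P * Nat.card (A × A) = Nat.card {c : A × A // Q c} * q ^ (2 * Module.finrank ℚ F) := by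
  have hfq : ∀ a a' : 𝓞 F, (q : 𝓞 F) ∣ a - a' → f a = f a' := by
    rintro a a' ⟨k, hk⟩
    have h1 : f (a - a') = 0 := by
      rw [hk, map_mul, map_natCast, hq, zero_mul]
    rw [map_sub] at h1
    exact sub_eq_zero.1 h1
  refine ⟨?_, ?_⟩
  · intro a b a' b' h1 h2 h3
    rw [hP] at h3 ⊢
    rw [← hfq a a' h1, ← hfq b b' h2]
    exact h3
  · have hI : ∀ x ∈ Ideal.span {(q : 𝓞 F)}, f x = 0 := by
      intro x hx
      rw [Ideal.mem_span_singleton] at hx
      obtain ⟨k, hk⟩ := hx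
      rw [hk, map_mul, map_natCast, hq, zero_mul]
    obtain ⟨fb, hfb⟩ : ∃ fb : Cl F q →+* A, fb = Ideal.Quotient.lift (Ideal.span {(q : 𝓞 F)}) f hI := ⟨_, rfl⟩
    have hfb1 : ∀ a, fb (Ideal.Quotient.mk (Ideal.span {(q : 𝓞 F)}) a) = f a := by
      intro a
      rw [hfb, Ideal.Quotient.lift_mk]
    have hfbs : Function.Surjective fb := by
      intro x
      obtain ⟨a, rfl⟩ := hf x
      exact ⟨_, hfb1 a⟩
    obtain ⟨g, hg⟩ : ∃ g : (Cl F q × Cl F q) →+ (A × A), g = fb.toAddMonoidHom.prodMap fb.toAddMonoidHom :=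
      ⟨_, rfl⟩
    have hg1 : ∀ z, g z = (fb z.1, fb z.2) := by
      intro z
      rw [hg]
      rfl
    have hgs : Function.Surjective g := by
      rintro ⟨x, y⟩
      obtain ⟨a, rfl⟩ := hfbs x
      obtain ⟨b, rfl⟩ := hfbs y
      exact ⟨(a, b), hg1 _⟩
    have h1 := card_mul g hgs Q
    have h2 : cnt q P = Nat.card {z : Cl F q × Cl F q // Q (g z)} := by
      unfold cnt
      refine Nat.card_congr (Equiv.subtypeEquivRight ?_)
      rintro ⟨z1, z2⟩
      obtain ⟨a, rfl⟩ := Ideal.Quotient.mk_surjective z1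
      obtain ⟨b, rfl⟩ := Ideal.Quotient.mk_surjective z2
      rw [hg1, hfb1, hfb1]
      constructor
      · intro h
        exact (hP a b).1 (h a b rfl)
      · intro h a' b' he
        rw [Prod.mk.injEq] at he
        rw [hP, ← hfb1 a', ← hfb1 b', ← he.1, ← he.2, hfb1, hfb1]
        exact h
    rw [h2, h1, Nat.card_prod, card_cl]
    ring

/-- different homomorphisms -/
theorem surj_prod {R : Type} [CommRing R] {p : ℕ} [Fact p.Prime] (f g : R →+* ZMod p) (x : R)
    (hx : f x ≠ g x) : Function.Surjective (f.prod g) := by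
  rintro ⟨s, t⟩
  obtain ⟨y, hy⟩ : ∃ y : R, y = x - ((g x).val : R) := ⟨_, rfl⟩
  have h1 : g y = 0 := by
    rw [hy, map_sub, map_natCast, ZMod.natCast_val, ZMod.cast_id, sub_self]
  have h2 : f y ≠ 0 := by
    rw [hy, map_sub, map_natCast, ZMod.natCast_val, ZMod.cast_id]
    exact sub_ne_zero.2 hx
  refine ⟨(t.val : R) + y * (((s - t) / f y).val : R), ?_⟩
  rw [RingHom.prod_apply]
  refine Prod.ext ?_ ?_
  · show f _ = s
    rw [map_add, map_mul, map_natCast, map_natCast, ZMod.natCast_val, ZMod.cast_id, ZMod.natCast_val, ZMod.cast_id]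
    field_simp
    ring
  · show g _ = t
    rw [map_add, map_mul, map_natCast, map_natCast, h1, zero_mul, add_zero, ZMod.natCast_val, ZMod.cast_id]

theorem one (hC : S_CNT3) : S_ONE := by
  intro F M _ _ _ _
  refine ⟨?_, ?_⟩
  · intro τ p _ ψ hp
    obtain ⟨h1, h2⟩ := cnt_hom (F := F) p (ψ.comp (RingOfIntegers.mapRingHom τ))
      (ZMod.ringHom_surjective _) (ZMod.natCast_self p) (Nz ψ τ)
      (fun c => ∀ x : ZMod p, x ^ 3 + c.1 * x + c.2 ≠ 0) (fun a b => Iff.rfl)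
    refine ⟨h1, ?_⟩
    have h3 := (hC p hp).1
    rw [Nat.card_prod, Nat.card_zmod] at h2
    obtain ⟨m, hm⟩ : ∃ m, m = Nat.card {c : ZMod p × ZMod p // ∀ x : ZMod p, x ^ 3 + c.1 * x + c.2 ≠ 0} := ⟨_, rfl⟩
    rw [← hm] at h2 h3
    obtain ⟨r, rfl⟩ : ∃ r, p = r + 2 := ⟨p - 2, by omega⟩
    have h4 : (r + 2) * (r + 2) ≤ 6 * m := by
      have h5 : r + 2 - 1 = r + 1 := by omega
      rw [h5] at h3
      nlinarith
    have h6 : (r + 2) ^ (2 * Module.finrank ℚ F) * ((r + 2) * (r + 2)) ≤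
        6 * cnt (r + 2) (Nz ψ τ) * ((r + 2) * (r + 2)) := by
      calc (r + 2) ^ (2 * Module.finrank ℚ F) * ((r + 2) * (r + 2))
          ≤ (r + 2) ^ (2 * Module.finrank ℚ F) * (6 * m) := Nat.mul_le_mul_left _ h4
        _ = 6 * (m * (r + 2) ^ (2 * Module.finrank ℚ F)) := by ring
        _ = 6 * (cnt (r + 2) (Nz ψ τ) * ((r + 2) * (r + 2))) := by rw [h2]
        _ = _ := by ring
    exact Nat.le_of_mul_le_mul_right h6 (by positivity)
  · intro τ τ' hτ
    -- an integer on which the embeddings differ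
    obtain ⟨α, hα⟩ : ∃ α : 𝓞 F, RingOfIntegers.mapRingHom τ α ≠ RingOfIntegers.mapRingHom τ' α := by
      by_contra hcon
      push Not at hcon
      apply hτ
      refine IsLocalization.ringHom_ext (nonZeroDivisors (𝓞 F)) (RingHom.ext fun x => ?_)
      have h1 := congrArg (fun z : 𝓞 M => (z : M)) (hcon x)
      exact h1
    obtain ⟨δ, hδ⟩ : ∃ δ : 𝓞 M, δ = RingOfIntegers.mapRingHom τ α - RingOfIntegers.mapRingHom τ' α := ⟨_, rfl⟩
    have hδ0 : δ ≠ 0 := by
      rw [hδ]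
      exact sub_ne_zero.2 hα
    obtain ⟨m, hm⟩ : ∃ m, m = Ideal.absNorm (Ideal.span {δ}) := ⟨_, rfl⟩
    have hm0 : m ≠ 0 := by
      rw [hm, Ne, Ideal.absNorm_eq_zero_iff, Ideal.span_singleton_eq_bot]
      exact hδ0
    have hmd : δ ∣ (m : 𝓞 M) := by
      have h1 := Ideal.absNorm_mem (Ideal.span {δ})
      rw [← hm, Ideal.mem_span_singleton] at h1
      exact h1
    refine ⟨max 4 m, fun p _ ψ hp => ?_⟩
    have hp4 : 4 < p := lt_of_le_of_lt (le_max_left _ _) hp
    have hpm : m < p := lt_of_le_of_lt (le_max_right _ _) hp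
    have hne : (ψ.comp (RingOfIntegers.mapRingHom τ)) α ≠ (ψ.comp (RingOfIntegers.mapRingHom τ')) α := by
      intro he
      have h1 : ψ δ = 0 := by
        rw [hδ, map_sub]
        exact sub_eq_zero.2 he
      obtain ⟨k, hk⟩ := hmd
      have h2 : ψ (m : 𝓞 M) = 0 := by
        rw [hk, map_mul, h1, zero_mul]
      rw [map_natCast, ZMod.natCast_eq_zero_iff] at h2
      have := Nat.le_of_dvd (Nat.pos_of_ne_zero hm0) h2
      omega
    obtain ⟨h1, h2⟩ := cnt_hom (F := F) p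
      ((ψ.comp (RingOfIntegers.mapRingHom τ)).prod (ψ.comp (RingOfIntegers.mapRingHom τ')))
      (surj_prod _ _ α hne) (by
        refine Prod.ext ?_ ?_
        · show ((p : ZMod p × ZMod p)).1 = 0
          rw [Prod.fst_natCast, ZMod.natCast_self]
        · show ((p : ZMod p × ZMod p)).2 = 0
          rw [Prod.snd_natCast, ZMod.natCast_self]) (fun a b => Nz ψ τ a b ∧ Sz ψ τ' a b)
      (fun c => (∀ x : ZMod p, x ^ 3 + c.1.1 * x + c.2.1 ≠ 0) ∧
        ∃ x : ZMod p, x ^ 3 + c.1.2 * x + c.2.2 = 0 ∧ 3 * x ^ 2 + c.1.2 ≠ 0) (fun a b => Iff.rfl)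
    refine ⟨h1, ?_⟩
    obtain ⟨h3, h4⟩ := hC p (by omega)
    obtain ⟨m1, hm1⟩ : ∃ m, m = Nat.card {c : ZMod p × ZMod p // ∀ x : ZMod p, x ^ 3 + c.1 * x + c.2 ≠ 0} := ⟨_, rfl⟩
    obtain ⟨m2, hm2⟩ : ∃ m, m = Nat.card {c : ZMod p × ZMod p // ∃ x : ZMod p, x ^ 3 + c.1 * x + c.2 = 0 ∧
      3 * x ^ 2 + c.1 ≠ 0} := ⟨_, rfl⟩
    have h5 : Nat.card {c : (ZMod p × ZMod p) × (ZMod p × ZMod p) //
        (∀ x : ZMod p, x ^ 3 + c.1.1 * x + c.2.1 ≠ 0) ∧
        ∃ x : ZMod p, x ^ 3 + c.1.2 * x + c.2.2 = 0 ∧ 3 * x ^ 2 + c.1.2 ≠ 0} = m1 * m2 := by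
      rw [hm1, hm2, ← Nat.card_prod]
      refine Nat.card_congr
        { toFun := fun c => (⟨(c.1.1.1, c.1.2.1), c.2.1⟩, ⟨(c.1.1.2, c.1.2.2), c.2.2⟩)
          invFun := fun w => ⟨((w.1.1.1, w.2.1.1), (w.1.1.2, w.2.1.2)), w.1.2, w.2.2⟩
          left_inv := fun c => rfl
          right_inv := fun w => rfl }
    rw [h5, Nat.card_prod, Nat.card_prod, Nat.card_zmod] at h2
    rw [← hm1] at h3
    rw [← hm2] at h4
    obtain ⟨r, rfl⟩ : ∃ r, p = r + 2 := ⟨p - 2, by omega⟩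
    have h6 : r + 2 - 1 = r + 1 := by omega
    rw [h6] at h3 h4
    have h7 : (r + 2) * (r + 2) ≤ 6 * m1 := by nlinarith
    have h8 : (r + 2) * (r + 2) ≤ 6 * m2 := by nlinarith
    have h9 : (r + 2) ^ (2 * Module.finrank ℚ F) * (((r + 2) * (r + 2)) * ((r + 2) * (r + 2))) ≤
        36 * cnt (r + 2) (fun a b => Nz ψ τ a b ∧ Sz ψ τ' a b) * (((r + 2) * (r + 2)) * ((r + 2) * (r + 2))) := by
      calc (r + 2) ^ (2 * Module.finrank ℚ F) * (((r + 2) * (r + 2)) * ((r + 2) * (r + 2)))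
          ≤ (r + 2) ^ (2 * Module.finrank ℚ F) * ((6 * m1) * (6 * m2)) :=
            Nat.mul_le_mul_left _ (Nat.mul_le_mul h7 h8)
        _ = 36 * (m1 * m2 * (r + 2) ^ (2 * Module.finrank ℚ F)) := by ring
        _ = 36 * (cnt (r + 2) (fun a b => Nz ψ τ a b ∧ Sz ψ τ' a b) *
            (((r + 2) * (r + 2)) * ((r + 2) * (r + 2)))) := by rw [h2]
        _ = _ := by ring
    exact Nat.le_of_mul_le_mul_right h9 (by positivity)

end Pool.Agent.Q275.ESF
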